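import Mathlib
import Pool.Agent.R805.Cop.Game

/-!
# Connected perfect graphs with independence number three have cop number at most two
(MP_985997_co)

The proof is due to helper10.
-/

set_option autoImplicit false

namespace Pool.Agent.Results.MP_985997_co.TwoCops

/-- Perfect graphs: `χ(H) = ω(H)` for every induced subgraph `H` of `G`. -/
def IsPerfect {V : Type} (G : SimpleGraph V) : Prop :=
  ∀ S : Set V, (G.induce S).chromaticNumber = ((G.induce S).cliqueNum : ℕ∞)

/-- `CopsWin G c r`: with the cops on the vertices `c 0, …, c (k-1)`, the robber on `r` and the
cops to move, the cops can force the capture after finitely many moves. -/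
inductive CopsWin {V : Type} (G : SimpleGraph V) {k : ℕ} : (Fin k → V) → V → Prop
  /-- Some cop is on the robber's vertex. -/
  | caught (c : Fin k → V) (r : V) (i : Fin k) (h : c i = r) : CopsWin G c r
  /-- The cops can move to `c'` (each cop stays or goes to an adjacent vertex) such that they
  either catch the robber by this move, or, whatever the robber answers (staying or going from `r`
  to an adjacent vertex `r'`), they can force the capture from `(c', r')`. -/
  | move (c : Fin k → V) (r : V) (c' : Fin k → V) (hc : ∀ i, c' i = c i ∨ G.Adj (c i) (c' i))
      (h : ∀ r', (r' = r ∨ G.Adj r r') → (∀ i, c' i ≠ r) → CopsWin G c' r') : CopsWin G c r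

/-- The cop number `c(G)`: the least number `k` of cops for which there is an initial position of
the cops from which they win, wherever the robber starts. -/
noncomputable def copNumber {V : Type} (G : SimpleGraph V) : ℕ :=
  sInf {k : ℕ | ∃ c : Fin k → V, ∀ r : V, CopsWin G c r}

lemma copsWin_of {V : Type} {G : SimpleGraph V} {k : ℕ} {c : Fin k → V} {r : V}
    (h : R805.Cop.CopsWin G c r) : CopsWin G c r := by
  induction h with
  | caught c r i h => exact CopsWin.caught c r i h
  | move c r c' hc _ ih => exact CopsWin.move c r c' hc ih

/-- Every connected perfect graph `G` with `α(G) = 3` satisfies `c(G) ≤ 2`, i.e. two cops have an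
initial position from which they win (and this set of numbers of cops is not empty). -/
theorem result (V : Type) [Fintype V] (G : SimpleGraph V) (hconn : G.Connected)
    (hperf : IsPerfect G) (hα : G.indepNum = 3) :
    copNumber G ≤ 2 ∧ ∃ c : Fin 2 → V, ∀ r : V, CopsWin G c r := by
  have h : ∃ c : Fin 2 → V, ∀ r : V, CopsWin G c r := by
    obtain ⟨c, hc⟩ := R805.Cop.two_cops hconn hperf hα
    exact ⟨c, fun r => copsWin_of (hc r)⟩
  exact ⟨Nat.sInf_le h, h⟩

end Pool.Agent.Results.MP_985997_co.TwoCops
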